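import Mathlib
import Pool.Agent.H18PC.PC

set_option autoImplicit false

namespace Pool.Agent.H75MB
open Pool.Agent.H18PC

variable {M : Type*} [Group M]

/-- the elements which preserve a set under left multiplication -/
def stab (X : Set M) : Subgroup M where
  carrier := {z | ∀ x, z * x ∈ X ↔ x ∈ X}
  one_mem' := by intro x; rw [one_mul]
  mul_mem' := by
    intro a b ha hb x
    rw [mul_assoc, ha, hb]
  inv_mem' := by
    intro a ha x
    rw [← ha (a⁻¹ * x), mul_inv_cancel_left]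

theorem mem_stab {X : Set M} {z : M} : z ∈ stab X ↔ ∀ x, z * x ∈ X ↔ x ∈ X := Iff.rfl

theorem conj_mem (as : List M) (h x : M) (hx : x ∈ conjProd as) :
    h * x * h⁻¹ ∈ conjProd as := by
  induction as generalizing x with
  | nil =>
    simp only [conjProd, Set.mem_singleton_iff] at hx ⊢
    rw [hx]; group
  | cons a as ih =>
    obtain ⟨g, z, hz, rfl⟩ := hx
    exact ⟨h * g, h * z * h⁻¹, ih z hz, by group⟩

theorem conj_mem_iff (as : List M) (h x : M) :
    h * x * h⁻¹ ∈ conjProd as ↔ x ∈ conjProd as := by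
  constructor
  · intro hx
    have := conj_mem as h⁻¹ _ hx
    have e : h⁻¹ * (h * x * h⁻¹) * h⁻¹⁻¹ = x := by group
    rwa [e] at this
  · exact conj_mem as h x

theorem stab_normal (as : List M) : (stab (conjProd as)).Normal := by
  constructor
  intro z hz h x
  rw [← conj_mem_iff as h⁻¹ (h * z * h⁻¹ * x), ← conj_mem_iff as h⁻¹ x]
  have e : h⁻¹ * (h * z * h⁻¹ * x) * h⁻¹⁻¹ = z * (h⁻¹ * x * h⁻¹⁻¹) := by group
  rw [e]
  exact hz _

theorem mem_append (as bs : List M) (x : M) :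
    x ∈ conjProd (as ++ bs) ↔ ∃ u ∈ conjProd as, ∃ v ∈ conjProd bs, x = u * v := by
  induction as generalizing x with
  | nil =>
    simp only [List.nil_append, conjProd, Set.mem_singleton_iff, exists_eq_left, one_mul]
    exact ⟨fun h => ⟨x, h, rfl⟩, fun ⟨v, hv, h⟩ => h ▸ hv⟩
  | cons a as ih =>
    constructor
    · rintro ⟨g, z, hz, rfl⟩
      obtain ⟨u, hu, v, hv, rfl⟩ := (ih z).1 hz
      exact ⟨g * a * g⁻¹ * u, ⟨g, u, hu, rfl⟩, v, hv, by group⟩
    · rintro ⟨u, ⟨g, z, hz, rfl⟩, v, hv, rfl⟩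
      exact ⟨g, z * v, (ih _).2 ⟨z, hz, v, hv, rfl⟩, by group⟩

theorem key {as : List M} {a c : M} (ha : a ∈ as)
    (h : ∀ P g : M, ∃ q ∈ stab (conjProd as), ∃ g' : M,
      c * P * (g * a * g⁻¹) = q * (P * (g' * a * g'⁻¹))) (x : M) (hx : x ∈ conjProd as) :
    c * x ∈ conjProd as := by
  obtain ⟨as1, as2, rfl⟩ := List.append_of_mem ha
  obtain ⟨P, hP, v, ⟨g, R, hR, rfl⟩, rfl⟩ := (mem_append _ _ _).1 hx
  obtain ⟨q, hq, g', hg'⟩ := h P g
  have e : c * (P * (g * a * g⁻¹ * R)) = q * (P * (g' * a * g'⁻¹ * R)) := by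
    calc c * (P * (g * a * g⁻¹ * R)) = c * P * (g * a * g⁻¹) * R := by group
      _ = q * (P * (g' * a * g'⁻¹)) * R := by rw [hg']
      _ = q * (P * (g' * a * g'⁻¹ * R)) := by group
  rw [e, hq]
  exact (mem_append _ _ _).2 ⟨P, hP, _, ⟨g', R, hR, rfl⟩, rfl⟩

theorem comm_aux {Q : Type*} [Group Q] {A B U V : Q} (h1 : Commute A U) (h2 : Commute A V)
    (h3 : Commute B U) (h4 : Commute B V) (h5 : Commute U V) :
    B * A * B⁻¹ * A⁻¹ * (A * U * (B * V) * (A * U)⁻¹ * (B * V)⁻¹) = 1 := by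
  have e1 : A * U * (B * V) = A * B * (U * V) := by
    calc A * U * (B * V) = A * (U * B) * V := by group
      _ = A * (B * U) * V := by rw [h3.eq]
      _ = A * B * (U * V) := by group
  have e2 : (B * V) * (A * U) = B * A * (U * V) := by
    calc (B * V) * (A * U) = B * (V * A) * U := by group
      _ = B * (A * V) * U := by rw [h2.eq]
      _ = B * A * (V * U) := by group
      _ = B * A * (U * V) := by rw [h5.eq]
  have e3 : A * U * (B * V) * (A * U)⁻¹ * (B * V)⁻¹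
      = (A * U * (B * V)) * ((B * V) * (A * U))⁻¹ := by group
  rw [e3, e1, e2]
  group

/-- L2 -/
theorem conjProd_comm_mul (M0 : Subgroup M) (hn : M0.Normal)
    (hM0 : ∀ x ∈ M0, ∀ y ∈ M0, x * y = y * x) (hab : ∀ x y : M, x * y * x⁻¹ * y⁻¹ ∈ M0)
    (as : List M) (N : Subgroup M) (hN : N = M0 ⊔ Subgroup.closure {a | a ∈ as})
    (x z : M) (hx : x ∈ conjProd as) (hz : z ∈ ⁅N, N⁆) : z * x ∈ conjProd as := by
  have hnQ := stab_normal as
  set Q := stab (conjProd as) with hQ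
  -- (ii)
  have step2 : ∀ a ∈ as, ∀ m ∈ M0, ∀ x ∈ conjProd as,
      a * m * a⁻¹ * m⁻¹ * x ∈ conjProd as := by
    intro a ha m hm
    apply key ha
    intro P g
    refine ⟨1, one_mem _, P⁻¹ * m⁻¹ * P * g, ?_⟩
    set u := a⁻¹ * (P * g) * a⁻¹⁻¹ * (P * g)⁻¹ with hu
    have hu0 : u ∈ M0 := hab _ _
    have e1 : a * u = P * (g * a * g⁻¹) * P⁻¹ := by rw [hu]; group
    have e2 : (a * u) * m * (a * u)⁻¹ = a * m * a⁻¹ := by
      have h1 := hM0 u hu0 m hm
      calc (a * u) * m * (a * u)⁻¹ = a * (u * m) * u⁻¹ * a⁻¹ := by group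
        _ = a * (m * u) * u⁻¹ * a⁻¹ := by rw [h1]
        _ = a * m * a⁻¹ := by group
    have e3 : m⁻¹ * (a * m * a⁻¹) = a * m * a⁻¹ * m⁻¹ :=
      hM0 _ (inv_mem hm) _ (hn.conj_mem m hm a)
    rw [one_mul, ← e3, ← e2, e1]
    group
  have in2 : ∀ a ∈ as, ∀ m ∈ M0, a * m * a⁻¹ * m⁻¹ ∈ Q := by
    intro a ha m hm x
    refine ⟨fun h => ?_, step2 a ha m hm x⟩
    have h1 := step2 a ha m⁻¹ (inv_mem hm) _ h
    have e : a * m⁻¹ * a⁻¹ * m⁻¹⁻¹ * (a * m * a⁻¹ * m⁻¹ * x) = x := by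
      have h2 : m * (a * m * a⁻¹) = a * m * a⁻¹ * m := hM0 _ hm _ (hn.conj_mem m hm a)
      calc a * m⁻¹ * a⁻¹ * m⁻¹⁻¹ * (a * m * a⁻¹ * m⁻¹ * x)
          = a * m⁻¹ * a⁻¹ * (m * (a * m * a⁻¹)) * m⁻¹ * x := by group
        _ = a * m⁻¹ * a⁻¹ * (a * m * a⁻¹ * m) * m⁻¹ * x := by rw [h2]
        _ = x := by group
    rwa [e] at h1
  let π : M →* M ⧸ Q := QuotientGroup.mk' Q
  have hπ : ∀ z : M, π z = 1 ↔ z ∈ Q := fun z => QuotientGroup.eq_one_iff z
  have com2 : ∀ a ∈ as, ∀ m ∈ M0, Commute (π a) (π m) := by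
    intro a ha m hm
    have h1 := (hπ _).2 (in2 a ha m hm)
    simp only [map_mul, map_inv] at h1
    show π a * π m = π m * π a
    have h2 : π a * π m * (π a)⁻¹ = π m := mul_inv_eq_one.1 h1
    exact mul_inv_eq_iff_eq_mul.1 h2
  have com0 : ∀ m ∈ M0, ∀ m' ∈ M0, Commute (π m) (π m') := by
    intro m hm m' hm'
    show π m * π m' = π m' * π m
    rw [← map_mul, ← map_mul, hM0 m hm m' hm']
  -- (iii)
  have step3 : ∀ a ∈ as, ∀ b ∈ as, ∀ x ∈ conjProd as,
      b * a * b⁻¹ * a⁻¹ * x ∈ conjProd as := by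
    intro a ha b hb
    apply key ha
    intro P g
    refine ⟨b * a * b⁻¹ * a⁻¹ * (P * (g * a * g⁻¹ * b * (g * a * g⁻¹)⁻¹ * b⁻¹) * P⁻¹), ?_,
      b * g, by group⟩
    rw [← hQ, ← hπ]
    set u := a⁻¹ * (P * g) * a⁻¹⁻¹ * (P * g)⁻¹ with hu
    have hu0 : u ∈ M0 := hab _ _
    set v := b⁻¹ * P * b⁻¹⁻¹ * P⁻¹ with hv
    have hv0 : v ∈ M0 := hab _ _
    have e : b * a * b⁻¹ * a⁻¹ * (P * (g * a * g⁻¹ * b * (g * a * g⁻¹)⁻¹ * b⁻¹) * P⁻¹)
        = b * a * b⁻¹ * a⁻¹ * (a * u * (b * v) * (a * u)⁻¹ * (b * v)⁻¹) := by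
      rw [hu, hv]; group
    rw [e]
    simp only [map_mul, map_inv]
    have := comm_aux (com2 a ha u hu0) (com2 a ha v hv0) (com2 b hb u hu0) (com2 b hb v hv0)
      (com0 u hu0 v hv0)
    simpa only [mul_assoc, mul_inv_rev] using this
  have in3 : ∀ a ∈ as, ∀ b ∈ as, b * a * b⁻¹ * a⁻¹ ∈ Q := by
    intro a ha b hb x
    refine ⟨fun h => ?_, step3 a ha b hb x⟩
    have h1 := step3 b hb a ha _ h
    have e : a * b * a⁻¹ * b⁻¹ * (b * a * b⁻¹ * a⁻¹ * x) = x := by group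
    rwa [e] at h1
  have com3 : ∀ a ∈ as, ∀ b ∈ as, Commute (π b) (π a) := by
    intro a ha b hb
    have h1 := (hπ _).2 (in3 a ha b hb)
    simp only [map_mul, map_inv] at h1
    have h2 : π b * π a * (π b)⁻¹ = π a := mul_inv_eq_one.1 h1
    exact mul_inv_eq_iff_eq_mul.1 h2
  -- generators
  set S : Set M := (M0 : Set M) ∪ {a | a ∈ as} with hS
  have hNS : N = Subgroup.closure S := by
    rw [hN, hS, Subgroup.closure_union, Subgroup.closure_eq]
  have comS : ∀ s ∈ S, ∀ t ∈ S, Commute (π s) (π t) := by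
    rintro s (hs | hs) t (ht | ht)
    · exact com0 s hs t ht
    · exact (com2 t ht s hs).symm
    · exact com2 s hs t ht
    · exact com3 t ht s hs
  have c1 : ∀ t ∈ S, ∀ s ∈ Subgroup.closure S, Commute (π s) (π t) := by
    intro t ht s hs
    induction hs using Subgroup.closure_induction with
    | mem s hs => exact comS s hs t ht
    | one => rw [map_one]; exact Commute.one_left _
    | mul a b _ _ h1 h2 => rw [map_mul]; exact h1.mul_left h2
    | inv a _ h1 => rw [map_inv]; exact h1.inv_left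
  have c2 : ∀ s ∈ Subgroup.closure S, ∀ t ∈ Subgroup.closure S, Commute (π s) (π t) := by
    intro s hs t ht
    induction ht using Subgroup.closure_induction with
    | mem t ht => exact c1 t ht s hs
    | one => rw [map_one]; exact Commute.one_right _
    | mul a b _ _ h1 h2 => rw [map_mul]; exact h1.mul_right h2
    | inv a _ h1 => rw [map_inv]; exact h1.inv_right
  have hle : ⁅N, N⁆ ≤ Q := by
    rw [Subgroup.commutator_le]
    intro s hs t ht
    rw [hNS] at hs ht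
    rw [← hπ, map_commutatorElement, commutatorElement_eq_one_iff_commute]
    exact c2 s hs t ht
  exact (hle hz x).2 hx

end Pool.Agent.H75MB
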